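import Pool.Agent.helper51.RMX.Spec

/-!
# MP_24e2e7_nt, project rmx, row SRJ: approximation of elements of relative norm 1
-/

set_option autoImplicit false

namespace Pool.Agent.RMX

open Pool.Agent.RB NumberField IsDedekindDomain Module
open scoped nonZeroDivisors Real Classical IsMulCommutative

/-- an element of given order at a prime -/
theorem SRJ_unif {k : Type} [Field k] [NumberField k] (q : HOS k) (e : ℤ) :
    ∃ t : k, t ≠ 0 ∧ ord q t = e := by
  obtain ⟨p, hp⟩ := q.valuation_exists_uniformizer k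
  have hp0 : p ≠ 0 := by
    intro h
    rw [h, map_zero] at hp
    exact absurd hp.symm (by simp)
  refine ⟨p ^ e, zpow_ne_zero _ hp0, ?_⟩
  have h1 : WithZero.log (q.valuation k (p ^ e)) = e * WithZero.log (q.valuation k p) := by
    rw [map_zpow₀, WithZero.log_zpow]
    simp
  rw [ord, h1, hp]
  simp

/-- the Chinese remainder theorem for finitely many primes -/
theorem SRJ_crt {K : Type} [Field K] [NumberField K] (s : Finset (HOS K)) (a : HOS K → 𝓞 K) :
    ∃ y : 𝓞 K, ∀ P ∈ s, P.valuation K ((y : K) - (a P : K)) < 1 := by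
  obtain ⟨y, hy⟩ := IsDedekindDomain.exists_forall_sub_mem_ideal (s := s) (fun P : HOS K => P.asIdeal)
    (fun _ => 1) (fun P _ => P.prime) (fun P _ Q _ hPQ h => hPQ (HeightOneSpectrum.ext h))
    (fun P => a P.val)
  refine ⟨y, fun P hP => ?_⟩
  have h1 := hy P hP
  rw [pow_one] at h1
  have h2 : P.valuation K (algebraMap (𝓞 K) K (y - a P)) < 1 :=
    (P.valuation_lt_one_iff_mem (K := K) (y - a P)).2 h1
  have h3 : (algebraMap (𝓞 K) K) (y - a P) = (y : K) - (a P : K) := map_sub (algebraMap (𝓞 K) K) y (a P)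
  rw [h3] at h2
  exact h2

theorem SRJ_one {K : Type} [Field K] [NumberField K] (P : HOS K) (y z : K) (hz : P.valuation K z = 1)
    (h : P.valuation K (y - z) < 1) : P.valuation K y = 1 := by
  have h1 : y = z + (y - z) := by ring
  rw [h1]
  refine (Valuation.map_add_eq_of_lt_left _ ?_).trans hz
  rw [hz]
  exact h

theorem SRJ : SRJ_stmt := by
  intro k K _ _ _ _ _ _ _ _ c hc hck T q hqT hq x₀ hx₀
  obtain ⟨o1, o2, o3, o4, o5, o6, o7, o8, o9⟩ := ORD K
  set c' : K ≃ₐ[k] K := AlgEquiv.ofRingEquiv (f := c) hck with hc'def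
  have hcc : (c' : K ≃+* K) = c := rfl
  have hc' : c' ≠ 1 := by
    intro h
    apply hc
    apply RingEquiv.ext
    intro x
    have h1 := congrArg (fun f : K ≃ₐ[k] K => f x) h
    exact h1
  have hinv : ∀ x : K, c (c x) = x := (CCJ k K c hc hck).2.1
  have hact : ∀ P : HOS K, act c (act c P) = P := by
    intro P
    rw [← o8, show c.trans c = RingEquiv.refl K from RingEquiv.ext hinv, o7]
  have hval : ∀ (P : HOS K) (x : K), P.valuation K (c x) = (act c P).valuation K x := by
    intro P x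
    have h1 := (o6 c (act c P) x).1
    rw [hact] at h1
    exact h1
  have hord : ∀ (P : HOS K) (x : K), ord P (c x) = ord (act c P) x := by
    intro P x
    have h1 := (o6 c (act c P) x).2
    rw [hact] at h1
    exact h1
  have hund : ∀ P : HOS K, (act c P).under (𝓞 k) = P.under (𝓞 k) := fun P => o9 k c P hck
  obtain ⟨y₀, hy₀, hxy⟩ := fin_h90 k K c hc hck (x₀ : K) hx₀.1
  have hcne : ∀ y : K, y ≠ 0 → c y ≠ 0 := fun y hy => (map_ne_zero c).2 hy
  have hx0 : ∀ P : HOS K, P.under (𝓞 k) = q → ord P (x₀ : K) = 0 := fun P hP =>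
    hx₀.2.1 P (fun h => h hP)
  have hyc : ∀ P : HOS K, P.under (𝓞 k) = q → ord P y₀ = ord (act c P) y₀ := by
    intro P hP
    have h1 := hx0 P hP
    rw [hxy, div_eq_mul_inv, ord_mul P hy₀ (inv_ne_zero (hcne _ hy₀)), ord_inv, hord] at h1
    linarith
  -- the orders of `y₀` at the primes above `q` are equal, and `q` is unramified
  obtain ⟨e, he, htq⟩ : ∃ e : ℤ, (∀ P : HOS K, P.under (𝓞 k) = q → ord P y₀ = e) ∧
      ∀ (P : HOS K), P.under (𝓞 k) = q → ∀ x : k, ord P (algebraMap k K x) = ord q x := by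
    rcases TYP k K c' hc' q with ⟨-, P, P', -, hset, -, -, ha, -, hx⟩ | ⟨-, P, hset, -, -, hx⟩ |
      ⟨ht, -⟩
    · have hP : P.under (𝓞 k) = q := by
        have : P ∈ {R : HOS K | R.under (𝓞 k) = q} := by rw [hset]; exact Set.mem_insert _ _
        exact this
      refine ⟨ord P y₀, fun R hR => ?_, fun R hR => ?_⟩
      · have hR' : R ∈ {R : HOS K | R.under (𝓞 k) = q} := hR
        rw [hset] at hR'
        rcases hR' with rfl | hR'
        · rfl
        · rw [Set.mem_singleton_iff] at hR'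
          rw [hR', hyc P hP]
          rw [hcc] at ha
          rw [ha]
      · have hR' : R ∈ {R : HOS K | R.under (𝓞 k) = q} := hR
        rw [hset] at hR'
        rcases hR' with rfl | hR'
        · exact fun x => (hx x).1
        · rw [Set.mem_singleton_iff] at hR'
          rw [hR']
          exact fun x => (hx x).2
    · refine ⟨ord P y₀, fun R hR => ?_, fun R hR => ?_⟩
      · have hR' : R ∈ {R : HOS K | R.under (𝓞 k) = q} := hR
        rw [hset, Set.mem_singleton_iff] at hR'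
        rw [hR']
      · have hR' : R ∈ {R : HOS K | R.under (𝓞 k) = q} := hR
        rw [hset, Set.mem_singleton_iff] at hR'
        rw [hR']
        exact hx
    · exact absurd ht hq
  have hfib : ∀ q' : HOS k, {R : HOS K | R.under (𝓞 k) = q'}.Finite ∧
      {R : HOS K | R.under (𝓞 k) = q'}.Nonempty := by
    intro q'
    rcases TYP k K c' hc' q' with ⟨-, P, P', -, hset, -⟩ | ⟨-, P, hset, -⟩ | ⟨-, P, hset, -⟩
    · rw [hset]
      exact ⟨(Set.finite_singleton _).insert _, ⟨P, Set.mem_insert _ _⟩⟩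
    · rw [hset]
      exact ⟨Set.finite_singleton _, ⟨P, rfl⟩⟩
    · rw [hset]
      exact ⟨Set.finite_singleton _, ⟨P, rfl⟩⟩
  have hTfin : {P : HOS K | P.under (𝓞 k) ∈ T}.Finite := by
    have h1 : {P : HOS K | P.under (𝓞 k) ∈ T} = ⋃ q' ∈ T, {R : HOS K | R.under (𝓞 k) = q'} := by
      ext P
      constructor
      · intro hP
        exact Set.mem_biUnion (x := P.under (𝓞 k)) hP rfl
      · intro hP
        obtain ⟨q', hq', hP'⟩ := Set.mem_iUnion₂.1 hP
        have h2 : P.under (𝓞 k) = q' := hP'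
        change P.under (𝓞 k) ∈ T
        rw [h2]
        exact hq'
    rw [h1]
    exact T.finite_toSet.biUnion fun q' _ => (hfib q').1
  obtain ⟨t, ht0, ht⟩ := SRJ_unif q e
  set τ : K := algebraMap k K t with hτ
  have hτ0 : τ ≠ 0 := (map_ne_zero _).2 ht0
  set y₁ : K := y₀ / τ with hy₁
  have hy₁0 : y₁ ≠ 0 := div_ne_zero hy₀ hτ0
  have hx1 : (x₀ : K) = y₁ / c y₁ := by
    rw [hxy, hy₁, map_div₀, hck t, ← hτ, div_div_div_cancel_right₀ hτ0]
  have hv1 : ∀ P : HOS K, P.under (𝓞 k) = q → P.valuation K y₁ = 1 := by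
    intro P hP
    rw [← o3 y₁ P hy₁0, hy₁, div_eq_mul_inv, ord_mul P hy₀ (inv_ne_zero hτ0), ord_inv, he P hP, hτ,
      htq P hP, ht]
    ring
  -- choice of the integral elements
  have ha : ∀ P : HOS K, ∃ a : 𝓞 K, (P.under (𝓞 k) = q → P.valuation K ((a : K) - y₁) < 1) ∧
      (P.under (𝓞 k) ≠ q → a = 1) := by
    intro P
    by_cases hP : P.under (𝓞 k) = q
    · obtain ⟨a, ha⟩ := RES_exists P y₁ (hv1 P hP).le
      exact ⟨a, fun _ => ha, fun h => absurd hP h⟩
    · exact ⟨1, fun h => absurd h hP, fun _ => rfl⟩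
  choose a ha1 ha2 using ha
  obtain ⟨y, hy⟩ := SRJ_crt hTfin.toFinset a
  have hyT : ∀ P : HOS K, P.under (𝓞 k) ∈ T → P.valuation K ((y : K) - (a P : K)) < 1 := fun P hP =>
    hy P (hTfin.mem_toFinset.2 hP)
  have hyq : ∀ P : HOS K, P.under (𝓞 k) = q → P.valuation K ((y : K) - y₁) < 1 := by
    intro P hP
    have h1 : (y : K) - y₁ = ((y : K) - (a P : K)) + ((a P : K) - y₁) := by ring
    rw [h1]
    exact (Valuation.map_add _ _ _).trans_lt (max_lt (hyT P (by rw [hP]; exact hqT)) (ha1 P hP))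
  have hy1 : ∀ P : HOS K, P.under (𝓞 k) ∈ T.erase q → P.valuation K ((y : K) - 1) < 1 := by
    intro P hP
    have h1 := hyT P (Finset.mem_of_mem_erase hP)
    rw [ha2 P (Finset.ne_of_mem_erase hP)] at h1
    have h2 : (((1 : 𝓞 K) : K)) = 1 := map_one _
    rw [h2] at h1
    exact h1
  have hyu : ∀ P : HOS K, P.under (𝓞 k) ∈ T → P.valuation K (y : K) = 1 := by
    intro P hP
    by_cases hPq : P.under (𝓞 k) = q
    · exact SRJ_one P _ _ (hv1 P hPq) (hyq P hPq)
    · exact SRJ_one P _ _ (map_one _) (hy1 P (Finset.mem_erase.2 ⟨hPq, hP⟩))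
  have hy0 : (y : K) ≠ 0 := by
    intro h
    obtain ⟨P, hP⟩ := (hfib q).2
    have h1 := hyu P (by rw [show P.under (𝓞 k) = q from hP]; exact hqT)
    rw [h, map_zero] at h1
    exact zero_ne_one h1
  have hyu' : ∀ P : HOS K, P.under (𝓞 k) ∈ T → P.valuation K (c (y : K)) = 1 := by
    intro P hP
    rw [hval]
    exact hyu _ (by rw [hund]; exact hP)
  have hcy0 : c (y : K) ≠ 0 := hcne _ hy0
  have hxne : (y : K) / c (y : K) ≠ 0 := div_ne_zero hy0 hcy0
  refine ⟨Units.mk0 ((y : K) / c (y : K)) hxne, ⟨?_, ?_, ?_⟩, ?_⟩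
  · change (y : K) / c (y : K) * c ((y : K) / c (y : K)) = 1
    rw [map_div₀, hinv, div_mul_div_comm, mul_comm (c (y : K)) (y : K)]
    exact div_self (mul_ne_zero hy0 hcy0)
  · intro P hP
    have hP' : P.under (𝓞 k) ∈ T := by
      by_contra h
      exact hP h
    change ord P ((y : K) / c (y : K)) = 0
    rw [o3 _ P hxne, map_div₀, hyu P hP', hyu' P hP', div_one]
  · intro P hP
    have hP1 : P.under (𝓞 k) ∈ T.erase q := hP
    have hP' : P.under (𝓞 k) ∈ T := Finset.mem_of_mem_erase hP1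
    change P.valuation K ((y : K) / c (y : K) - 1) < 1
    have h1 : (y : K) / c (y : K) - 1 = (((y : K) - 1) - c ((y : K) - 1)) / c (y : K) := by
      rw [map_sub, map_one]
      field_simp
      ring
    rw [h1, map_div₀, hyu' P hP', div_one]
    refine (Valuation.map_sub _ _ _).trans_lt (max_lt (hy1 P hP1) ?_)
    rw [hval]
    exact hy1 _ (by rw [hund]; exact hP1)
  · intro P hP
    have hP' : P.under (𝓞 k) ∈ T := by rw [hP]; exact hqT
    have hPc : (act c P).under (𝓞 k) = q := by rw [hund]; exact hP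
    change P.valuation K ((x₀ : K) * ((y : K) / c (y : K))⁻¹ - 1) < 1
    have hcy1 : c y₁ ≠ 0 := hcne _ hy₁0
    have h1 : (x₀ : K) * ((y : K) / c (y : K))⁻¹ - 1 =
        (y₁ * c ((y : K) - y₁) - c y₁ * ((y : K) - y₁)) / (c y₁ * (y : K)) := by
      rw [hx1, map_sub]
      field_simp
      ring
    rw [h1, map_div₀, map_mul, hval P y₁, hv1 _ hPc, hyu P hP', mul_one, div_one]
    refine (Valuation.map_sub _ _ _).trans_lt (max_lt ?_ ?_)
    · rw [map_mul, hv1 P hP, one_mul, hval]
      exact hyq _ hPc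
    · rw [map_mul, hval P y₁, hv1 _ hPc, one_mul]
      exact hyq P hP

end Pool.Agent.RMX
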